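import Mathlib
import Pool.Agent.H.MP_0f7a95_an.A

namespace Pool.Agent.Results.MP_0f7a95_an.NotDense

open Set

/-- The set of convex-cyclic vectors of `T`. -/
def CCVec {X : Type} [NormedAddCommGroup X] [NormedSpace ℂ X] (T : X →L[ℂ] X) : Set X :=
  {x | Dense (convexHull ℝ (range fun n : ℕ => (T ^ n) x))}

set_option maxHeartbeats 400000 in
theorem result : ∃ (X : Type) (_ : NormedAddCommGroup X) (_ : NormedSpace ℂ X)
    (_ : CompleteSpace X) (T : X →L[ℂ] X), (CCVec T).Nonempty ∧ ¬ Dense (CCVec T) := by
  have : Fact ((0:ℝ) < 1) := ⟨one_pos⟩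
  let z : C(AddCircle (1:ℝ), ℂ) := fourier 1
  let P := Algebra.adjoin ℂ {z}
  let A := P.topologicalClosure
  have hc : IsClosed (A : Set C(AddCircle (1:ℝ), ℂ)) := P.isClosed_topologicalClosure
  have : CompleteSpace A := hc.completeSpace_coe
  let s : A := ⟨z, P.le_topologicalClosure (Algebra.self_mem_adjoin_singleton ℂ z)⟩
  have hd : ∀ f : StrongDual ℂ A, (∀ k, f (s ^ k) = 0) → f = 0 := by
    intro f hf
    ext x
    have h1 : x ∈ closure {y : A | y.1 ∈ P} := by
      rw [closure_subtype]
      refine closure_mono (fun y hy => ?_) x.2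
      exact ⟨⟨y, P.le_topologicalClosure hy⟩, hy, rfl⟩
    refine closure_minimal (t := {y : A | f y = 0}) (fun y hy => ?_)
      (isClosed_eq f.continuous continuous_const) h1
    have hy' : y.1 ∈ (Polynomial.aeval z : Polynomial ℂ →ₐ[ℂ] _).range := by
      rw [← Algebra.adjoin_singleton_eq_range_aeval]; exact hy
    obtain ⟨p, hp⟩ := hy'
    have h2 : y = Polynomial.aeval s p := by
      apply Subtype.ext
      rw [← hp]
      exact Polynomial.aeval_subalgebra_coe p A s |>.symm
    rw [mem_ofPred_eq, h2, Polynomial.aeval_eq_sum_range, map_sum]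
    simp [hf]
  have hz : ∀ k : ℕ, z ^ k = fourier k := by
    intro k
    induction k with
    | zero => ext t; simp
    | succ k ih =>
      ext t
      rw [pow_succ, ih, ContinuousMap.mul_apply, ← fourier_add]; push_cast; rfl
  obtain ⟨T, h1, h2⟩ := Pool.Agent.H.MP_0f7a95_an.main s (by
      change ‖(1 : C(AddCircle (1:ℝ), ℂ))‖ ≤ 1
      exact (ContinuousMap.norm_le _ zero_le_one).2 fun t => by simp)
    (fun x => by
      change ‖z * x.1‖ = ‖x.1‖
      rw [ContinuousMap.norm_eq_iSup_norm, ContinuousMap.norm_eq_iSup_norm]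
      congr 1
      ext t
      simp [z])
    (fun h => by
      obtain ⟨x, hx⟩ := h.exists_right_inv
      have e1 : z * x.1 = 1 := congrArg Subtype.val hx
      have e2 : x.1 = fourier (-1) := by
        have e3 : fourier (-1) * z = 1 := by
          ext t
          rw [ContinuousMap.mul_apply, ← fourier_add]; simp
        rw [← one_mul x.1, ← e3, mul_assoc, e1, mul_one]
      let φ : StrongDual ℂ A := ((innerSL ℂ (fourierLp (T := 1) 2 (-1))).comp
        (ContinuousMap.toLp 2 AddCircle.haarAddCircle ℂ)).comp A.toSubmodule.subtypeL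
      have e4 : ∀ (y : A) (n : ℤ), y.1 = fourier n → φ y = if -1 = n then 1 else 0 := by
        intro y n hy
        rw [← orthonormal_iff_ite.1 (orthonormal_fourier (T := 1)) (-1) n]
        show inner ℂ (fourierLp (T := 1) 2 (-1))
          (ContinuousMap.toLp 2 AddCircle.haarAddCircle ℂ y.1) = _
        rw [hy]
      have e5 := hd φ fun k => by
        rw [e4 _ k (hz k), if_neg (by omega)]
      have e6 := e4 x _ e2
      rw [e5] at e6
      simp at e6) hd
  exact ⟨A, inferInstance, inferInstance, inferInstance, T, h1, h2⟩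

end Pool.Agent.Results.MP_0f7a95_an.NotDense
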